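import Pool.Agent.MP_5d9b3c_ag.O4.Spec

/-! Forms of one degree: the zeros modulo a prime power are counted in the charts. -/

namespace Pool.Agent.MP_5d9b3c_ag.O4

open MvPolynomial

namespace CountX

section general

variable {R : Type} [CommRing R]

theorem hom {σ : Type} [Fintype σ] {g : MvPolynomial σ ℤ} {d : ℕ} (hg : g.IsHomogeneous d)
    (c : R) (v : σ → R) : aeval (fun l => c * v l) g = c ^ d * aeval v g := by
  simp only [aeval_def, eval₂_eq', Finset.mul_sum]
  refine Finset.sum_congr rfl fun s hs => ?_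
  have h := hg (mem_support_iff.1 hs)
  rw [Finsupp.weight_apply, Finsupp.sum_fintype _ _ (by simp)] at h
  simp only [Pi.one_apply, smul_eq_mul, mul_one] at h
  simp only [mul_pow, Finset.prod_mul_distrib, Finset.prod_pow_eq_pow_sum, h]
  ring

/-- coordinatewise multiplication -/
def mulv {ι : Type} (c : ι → R) : (ι → R) →+ (ι → R) where
  toFun z l := c l * z l
  map_zero' := funext fun _ => mul_zero _
  map_add' _ _ := funext fun _ => mul_add _ _ _

theorem scale {ι : Type} [Fintype ι] (S : ι → Prop) [DecidablePred S] {π : R} {q : ℕ}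
    (hu : ∀ z, ¬IsUnit z ↔ ∃ y, π * y = z) (hk : Nat.card {t // π * t = 0} = q)
    (Q : (ι → R) → Prop) :
    Nat.card {z : ι → R // Q fun l => (if S l then π else 1) * z l} =
      (∏ l, if S l then q else 1) * Nat.card {y // Q y ∧ ∀ l, S l → ¬IsUnit (y l)} := by
  have h := H10.card_pre (mulv fun l => if S l then π else 1)
    (fun y => Q y ∧ ∀ l, S l → ¬IsUnit (y l)) fun y hy => by
      have : ∀ l, ∃ t, (if S l then π else 1) * t = y l := fun l => by
        split_ifs with hl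
        · exact (hu _).1 (hy.2 l hl)
        · exact ⟨_, one_mul _⟩
      choose t ht using this
      exact ⟨t, funext ht⟩
  have h2 : Nat.card {g : ι → R // mulv (fun l => if S l then π else 1) g = 0} =
      ∏ l, if S l then q else 1 := by
    refine (Nat.card_congr ((Equiv.subtypeEquivRight fun g => funext_iff).trans
      (Equiv.subtypePiEquivPi (p := fun l t => (if S l then π else 1) * t = 0)))).trans ?_
    rw [Nat.card_pi]
    refine Finset.prod_congr rfl fun l _ => ?_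
    split_ifs
    · exact hk
    · simp
  rw [← h2, ← h]
  refine Nat.card_congr (Equiv.subtypeEquivRight fun z => ⟨fun hz => ⟨hz, fun l hl => ?_⟩,
    fun hz => hz.1⟩)
  exact (hu _).2 ⟨z l, by simp [mulv, hl]⟩

theorem chart {n : ℕ} (i : Fin (n + 1)) (Z : (Fin (n + 1) → R) → Prop)
    (hZ : ∀ (u : Rˣ) x, Z (fun k => u * x k) ↔ Z x) :
    Nat.card {x // Z x ∧ IsUnit (x i) ∧ ∀ k < i, ¬IsUnit (x k)} =
      Nat.card Rˣ * Nat.card {y : Fin n → R // Z (i.insertNth 1 y) ∧
        ∀ l, l.castSucc < i → ¬IsUnit (y l)} := by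
  rw [← Nat.card_prod]
  have hw : ∀ (u : Rˣ) (y : Fin n → R), (∀ l, l.castSucc < i → ¬IsUnit (y l)) →
      ∀ k < i, ¬IsUnit (u * (i.insertNth 1 y : Fin (n + 1) → R) k) := fun u y hy => by
    rw [Fin.forall_iff_succAbove i]
    refine ⟨fun h => absurd h (lt_irrefl _), fun l hl h => ?_⟩
    rw [Fin.insertNth_apply_succAbove] at h
    exact hy l ((Fin.succAbove_lt_iff_castSucc_lt _ _).1 hl) (isUnit_of_mul_isUnit_right h)
  refine (Nat.card_congr (Equiv.ofBijective (fun w => ⟨fun k => w.1 *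
    (i.insertNth 1 w.2.1 : Fin (n + 1) → R) k, (hZ _ _).2 w.2.2.1, by simp, hw _ _ w.2.2.2⟩)
      ⟨fun a b h => ?_, fun x => ?_⟩)).symm
  · have h1 := congrFun (congrArg Subtype.val h)
    have h2 : a.1 = b.1 := Units.ext (by simpa using h1 i)
    refine Prod.ext h2 (Subtype.ext (funext fun l => ?_))
    simpa [h2] using h1 (i.succAbove l)
  · obtain ⟨x, hx, ⟨u, hu⟩, hk⟩ := x
    have e : (fun k => u * (i.insertNth 1 fun l => (u⁻¹ : Rˣ) * x (i.succAbove l) :
        Fin (n + 1) → R) k) = x := by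
      rw [funext_iff, Fin.forall_iff_succAbove i]
      simp [← hu]
    refine ⟨(u, ⟨fun l => (u⁻¹ : Rˣ) * x (i.succAbove l), (hZ u _).1 (e.symm ▸ hx),
      fun l hl h => ?_⟩), Subtype.ext e⟩
    exact hk _ ((Fin.succAbove_lt_iff_castSucc_lt _ _).2 hl) (isUnit_of_mul_isUnit_right h)

theorem split [Finite R] {n : ℕ} (Z : (Fin n → R) → Prop) :
    Nat.card {x // Z x} = ∑ i, Nat.card {x // Z x ∧ IsUnit (x i) ∧ ∀ k < i, ¬IsUnit (x k)} +
      Nat.card {x // Z x ∧ ∀ l, True → ¬IsUnit (x l)} := by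
  classical
  have := Fintype.ofFinite R
  simp only [Nat.card_eq_fintype_card, Fintype.card_subtype, Finset.card_filter]
  rw [Finset.sum_comm, ← Finset.sum_add_distrib]
  refine Finset.sum_congr rfl fun x _ => ?_
  by_cases hx : Z x
  · by_cases h : ∃ i, IsUnit (x i)
    · obtain ⟨i, hi, hm⟩ := (wellFounded_lt (α := Fin n)).has_min {i | IsUnit (x i)} h
      rw [Finset.sum_eq_single i (fun j _ hj => if_neg fun hj' => ?_) (by simp), if_pos hx,
        if_pos ⟨hx, hi, fun k hk hk' => hm k hk' hk⟩, if_neg fun h' => h'.2 i trivial hi]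
      rcases lt_or_gt_of_ne hj with h1 | h1
      · exact hm j hj'.2.1 h1
      · exact hj'.2.2 i h1 hi
    · rw [if_pos hx, if_pos ⟨hx, fun l _ hl => h ⟨l, hl⟩⟩,
        Finset.sum_eq_zero fun j _ => if_neg fun hj => h ⟨j, hj.2.1⟩]
  · simp [hx]

theorem ev_sb {n : ℕ} (p : ℕ) (i : Fin (n + 1)) (z : Fin n → R)
    (g : MvPolynomial (Fin (n + 1)) ℤ) : aeval z (aeval (sb p i) g) =
      aeval (i.insertNth 1 fun l => (if l.castSucc < i then (p : R) else 1) * z l :
        Fin (n + 1) → R) g := by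
  rw [comp_aeval_apply]
  refine congrArg (fun v => aeval v g) ?_
  rw [funext_iff, Fin.forall_iff_succAbove i]
  refine ⟨by simp [sb], fun l => ?_⟩
  simp only [sb, Fin.insertNth_apply_succAbove]
  split_ifs <;> simp

end general

variable {p : ℕ} (hp : p.Prime)
include hp

theorem key (e d : ℕ) (t : ZMod (p ^ (e + d))) : (p : ZMod (p ^ (e + d))) ^ d * t = 0 ↔
    ZMod.castHom (pow_dvd_pow p (Nat.le_add_right e d)) (ZMod (p ^ e)) t = 0 := by
  have : NeZero (p ^ (e + d)) := ⟨pow_ne_zero _ hp.ne_zero⟩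
  obtain ⟨a, rfl⟩ := ZMod.natCast_zmod_surjective t
  rw [map_natCast, ← Nat.cast_pow, ← Nat.cast_mul, ZMod.natCast_eq_zero_iff,
    ZMod.natCast_eq_zero_iff, pow_add, mul_comm (p ^ e),
    Nat.mul_dvd_mul_iff_left (pow_pos hp.pos d)]

theorem nonunit (m : ℕ) (z : ZMod (p ^ (m + 1))) : ¬IsUnit z ↔ ∃ y, p * y = z := by
  have : NeZero (p ^ (m + 1)) := ⟨pow_ne_zero _ hp.ne_zero⟩
  have hu : ∀ n : ℕ, ¬IsUnit (n : ZMod (p ^ (m + 1))) ↔ p ∣ n := fun n => by
    rw [ZMod.isUnit_iff_coprime, Nat.coprime_pow_right_iff m.succ_pos, Nat.coprime_comm,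
      hp.coprime_iff_not_dvd, not_not]
  refine ⟨fun h => ?_, fun ⟨y, hy⟩ h => (hu p).2 dvd_rfl (isUnit_of_mul_isUnit_left (hy ▸ h))⟩
  obtain ⟨y, hy⟩ := (hu z.val).1 (by simpa using h)
  exact ⟨y, by rw [← Nat.cast_mul, ← hy, ZMod.natCast_zmod_val]⟩

theorem ker1 (m : ℕ) : Nat.card {t : ZMod (p ^ (m + 1)) // p * t = 0} = p := by
  refine Eq.trans (Nat.card_congr (Equiv.subtypeEquivRight fun t => ?_))
    (H10.card_ker_red hp.pos m)
  have h := key hp m 1 t
  rw [pow_one] at h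
  exact h

theorem units (m : ℕ) : (Nat.card (ZMod (p ^ (m + 1)))ˣ : ℚ) = p ^ m * (p - 1) := by
  have : NeZero (p ^ (m + 1)) := ⟨pow_ne_zero _ hp.ne_zero⟩
  rw [Nat.card_eq_fintype_card, ZMod.card_units_eq_totient, Nat.totient_prime_pow_succ hp,
    Nat.cast_mul, Nat.cast_pred hp.pos, Nat.cast_pow]

theorem vertex {σ κ : Type} [Fintype σ] {f : κ → MvPolynomial σ ℤ} {d : ℕ}
    (hf : ∀ j, (f j).IsHomogeneous d) (e : ℕ) :
    Nat.card {z : σ → ZMod (p ^ (e + d)) // ∀ j, aeval (fun l => p * z l) (f j) = 0} =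
      (p ^ d) ^ Fintype.card σ * Nat.card {x : σ → ZMod (p ^ e) // ∀ j, aeval x (f j) = 0} := by
  let ρ := ZMod.castHom (pow_dvd_pow p (Nat.le_add_right e d)) (ZMod (p ^ e))
  let φ : (σ → ZMod (p ^ (e + d))) →+ (σ → ZMod (p ^ e)) := ρ.toAddMonoidHom.compLeft σ
  have hs : ∀ h, ∃ g, φ g = h := (ZMod.ringHom_surjective ρ).comp_left
  have h := H10.card_pre φ (fun _ => True) fun h _ => hs h
  rw [Nat.card_subtype_true, Nat.card_subtype_true, Nat.card_fun, Nat.card_fun, Nat.card_zmod,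
    Nat.card_zmod, Nat.card_eq_fintype_card (α := σ)] at h
  have h2 := H10.card_pre φ (fun x => ∀ j, aeval x (f j) = 0) fun h _ => hs h
  generalize Nat.card {g // φ g = 0} = c at h h2
  have h0 := hp.pos
  rw [pow_add, mul_pow, mul_comm] at h
  rw [Nat.eq_of_mul_eq_mul_right (by positivity) h, ← h2]
  refine Nat.card_congr (Equiv.subtypeEquivRight fun z => forall_congr' fun j => ?_)
  rw [hom (hf j), key hp]
  exact Eq.congr_left (comp_aeval_apply z ρ.toIntAlgHom (f j))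

end CountX

open CountX in
theorem rCount : SCount := by
  intro n r d p f hp hd hf
  obtain ⟨d, rfl⟩ : ∃ e, d = e + 1 := ⟨d - 1, by omega⟩
  have p0 : (p : ℚ) ≠ 0 := Nat.cast_ne_zero.2 hp.ne_zero
  obtain ⟨K, hK⟩ : ∃ K : Fin (n + 1) → ℕ,
    ∀ i, (∏ l : Fin n, if l.castSucc < i then p else 1) = K i := ⟨_, fun _ => rfl⟩
  have K0 : ∀ i, (K i : ℚ) ≠ 0 := fun i => by
    rw [← hK, Nat.cast_ne_zero]
    exact Finset.prod_ne_zero_iff.2 fun l _ => by split_ifs; exacts [hp.ne_zero, one_ne_zero]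
  refine ⟨fun i => (p - 1) / p / K i, PowerSeries.trunc (d + 1)
    ((1 - PowerSeries.C (((p : ℚ) ^ (n + 1))⁻¹) * PowerSeries.X ^ (d + 1)) * H10.wser f p -
      ∑ i, PowerSeries.C (((p : ℚ) - 1) / p / K i) *
        H10.wser (fun j => aeval (sb p i) (f j)) p), ?_⟩
  ext m
  rw [map_add, Polynomial.coeff_coe, PowerSeries.coeff_trunc]
  split_ifs with hm
  · rw [map_sub, add_sub_cancel]
  obtain ⟨e, rfl⟩ : ∃ e, m = e + (d + 1) := ⟨m - (d + 1), by omega⟩
  have : NeZero (p ^ (e + d + 1)) := ⟨pow_ne_zero _ hp.ne_zero⟩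
  have h1 := split fun x : Fin (n + 1) → ZMod (p ^ (e + d + 1)) => ∀ j, aeval x (f j) = 0
  have h2 := scale (fun _ : Fin (n + 1) => True) (nonunit hp (e + d)) (ker1 hp (e + d))
    fun x => ∀ j, aeval x (f j) = 0
  simp only [if_true, Finset.prod_const, Finset.card_univ, Fintype.card_fin] at h2
  have h3 := h2.symm.trans (vertex hp hf e)
  rw [Fintype.card_fin] at h3
  have h4 : ∀ i : Fin (n + 1), (Nat.card {x : Fin (n + 1) → ZMod (p ^ (e + d + 1)) //
      (∀ j, aeval x (f j) = 0) ∧ IsUnit (x i) ∧ ∀ k < i, ¬IsUnit (x k)} : ℚ) =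
      p ^ (e + d) * (p - 1) / K i * Nat.card {z : Fin n → ZMod (p ^ (e + d + 1)) //
        ∀ j, aeval z (aeval (sb p i) (f j)) = 0} := fun i => by
    rw [chart i _ fun u x => forall_congr' fun j => by
      rw [hom (hf j), (u.isUnit.pow _).mul_right_eq_zero]]
    simp only [ev_sb]
    rw [scale (fun l : Fin n => l.castSucc < i) (nonunit hp (e + d)) (ker1 hp (e + d))
      fun y => ∀ j, aeval (i.insertNth 1 y : Fin (n + 1) → _) (f j) = 0, hK, Nat.cast_mul,
      Nat.cast_mul, units hp]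
    have := K0 i
    field_simp
  have h5 := congrArg (Nat.cast : ℕ → ℚ) h1
  have h6 := congrArg (Nat.cast : ℕ → ℚ) h3
  rw [Nat.cast_add, Nat.cast_sum, Finset.sum_congr rfl fun i _ => h4 i] at h5
  push_cast at h6
  simp only [sub_mul, one_mul, mul_assoc, map_sub, PowerSeries.coeff_C_mul,
    PowerSeries.coeff_X_pow_mul', map_sum, H10.wser, PowerSeries.coeff_mk, Fintype.card_fin,
    Nat.le_add_left, if_true, Nat.add_sub_cancel, add_zero]
  rw [← add_assoc e d 1, h5, add_mul, Finset.sum_mul, add_sub_assoc]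
  refine (congrArg₂ (· + ·) (Finset.sum_congr rfl fun i _ => ?_) ?_).trans (add_zero _)
  · have := K0 i
    simp only [inv_pow, ← pow_mul]
    field_simp
    ring
  · rw [eq_div_of_mul_eq (pow_ne_zero (n + 1) p0) ((mul_comm _ _).trans h6)]
    simp only [inv_pow, ← pow_mul]
    field_simp
    ring

end Pool.Agent.MP_5d9b3c_ag.O4
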