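import Pool.Agent.MP_ee8c61_ag.TC.Stmt

/-!
Ideals generated by forms of one degree whose zero set has a complement of log general type over
the image of the map that the forms define.
-/

namespace Pool.Agent.MP_5d9b3c_ag.O4

open MvPolynomial MP_ee8c61_ag.TC

/-- For some `m`, `c` and some nonzero form `h` of degree smaller than `c d - (n + 1) m`, the
twisted pluricanonical form `h Ω ^ m / g ^ c`, with `g` a local generator of `I`, has at most
logarithmic poles after pull-back by any map `ψ` to projective `n`-space from a variety with etale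
coordinates `z` in which `I` is generated by a monomial. -/
def LogGeneral {n : ℕ} (I : Ideal (MvPolynomial (Fin (n + 1)) ℂ)) (d : ℕ) : Prop :=
  ∃ (h : MvPolynomial (Fin (n + 1)) ℂ) (m c κ : ℕ), h ≠ 0 ∧ h.IsHomogeneous κ ∧
    κ + (n + 1) * m < c * d ∧
    ∀ (B : Type) [CommRing B] [IsDomain B] [Algebra ℂ B] (z : Fin n → B)
      (D : Fin n → Derivation ℂ B B) (ψ : Fin (n + 1) → B) (a : Fin n → ℕ),
      (aeval (R := ℂ) z).toRingHom.Etale → (∀ i j, D i (z j) = if i = j then 1 else 0) →
      (∃ l, IsUnit (ψ l)) → I.map (aeval ψ) = Ideal.span {∏ i, z i ^ a i} →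
      (∏ i, z i ^ a i) ^ c ∣ aeval ψ h * (jac D ψ * ∏ i with a i ≠ 0, z i) ^ m

end Pool.Agent.MP_5d9b3c_ag.O4
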