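import Pool.Agent.MP_5d9b3c_ag.O4.Spec

/-! Dehomogenisation of the functional equation, for any number of variables. -/

namespace Pool.Agent.MP_5d9b3c_ag.O4

open MvPolynomial

namespace DehX

variable {σ τ : Type}

/-- `Φ n` is the value at `g ^ (n + 1)` of an operator that depends polynomially on `n` -/
def Good (g : MvPolynomial τ ℂ) (Φ : ℕ → MvPolynomial τ ℂ) : Prop :=
  ∃ P : Polynomial (H72.weyl τ), ∀ n : ℕ, Φ n = (P.eval (n : H72.weyl τ)).1 (g ^ (n + 1))

variable {g : MvPolynomial τ ℂ} {Φ Ψ : ℕ → MvPolynomial τ ℂ}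

theorem Good.zero : Good g fun _ => 0 := ⟨0, fun n => by simp⟩

theorem Good.add (h : Good g Φ) (h' : Good g Ψ) : Good g fun n => Φ n + Ψ n := by
  obtain ⟨P, h⟩ := h
  obtain ⟨Q, h'⟩ := h'
  exact ⟨P + Q, fun n => by simp [h, h']⟩

theorem Good.sum {ι : Type} (s : Finset ι) (Θ : ι → ℕ → MvPolynomial τ ℂ)
    (h : ∀ i ∈ s, Good g (Θ i)) : Good g fun n => ∑ i ∈ s, Θ i n := by
  classical
  induction s using Finset.induction_on with
  | empty => simpa using Good.zero
  | insert a s ha ih =>
    simp only [Finset.sum_insert ha]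
    exact (h a (Finset.mem_insert_self _ _)).add (ih fun i hi => h i (Finset.mem_insert_of_mem hi))

theorem Good.op (h : Good g Φ) {Q : Module.End ℂ (MvPolynomial τ ℂ)} (hQ : Q ∈ H72.weyl τ) :
    Good g fun n => Q (Φ n) := by
  obtain ⟨P, h⟩ := h
  exact ⟨Polynomial.C ⟨Q, hQ⟩ * P, fun n => by simp [h]⟩

theorem Good.nat (h : Good g Φ) : Good g fun n => (n : MvPolynomial τ ℂ) * Φ n := by
  obtain ⟨P, h⟩ := h
  exact ⟨P * Polynomial.X, fun n => by
    beta_reduce
    rw [Polynomial.eval_mul_X, h, ← nsmul_eq_mul, ← map_nsmul]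
    simp⟩

theorem mulL_mem (p : MvPolynomial τ ℂ) : LinearMap.mulLeft ℂ p ∈ H72.weyl τ := by
  induction p using MvPolynomial.induction_on with
  | C a =>
    exact Eq.subst (motive := (· ∈ H72.weyl τ))
      (LinearMap.ext fun q => by simp [smul_eq_C_mul]) ((H72.weyl τ).algebraMap_mem a)
  | add p q hp hq =>
    exact Eq.subst (motive := (· ∈ H72.weyl τ))
      (LinearMap.ext fun q => by simp [add_mul]) (add_mem hp hq)
  | mul_X p i hp =>
    exact Eq.subst (motive := (· ∈ H72.weyl τ)) (LinearMap.ext fun q => by simp)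
      (mul_mem hp (Algebra.subset_adjoin (Or.inl ⟨i, rfl⟩)))

theorem Good.mul (h : Good g Φ) (p : MvPolynomial τ ℂ) : Good g fun n => p * Φ n :=
  h.op (mulL_mem p)

theorem Good.der (h : Good g Φ) (j : τ) : Good g fun n => pderiv j (Φ n) :=
  h.op (Algebra.subset_adjoin (Or.inr ⟨j, rfl⟩))

theorem Good.pow (h : Good g Φ) (t : ℕ) :
    Good g fun n => (n : MvPolynomial τ ℂ) ^ t * Φ n := by
  induction t with
  | zero => simpa using h
  | succ t ih => simpa only [pow_succ', mul_assoc] using ih.nat

theorem Good.congr (h : Good g Φ) (e : ∀ n, Ψ n = Φ n) : Good g Ψ := by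
  rwa [funext e]

theorem Good.out {b : Polynomial ℂ} (h : Good g fun n => b.eval (n : ℂ) • g ^ n) :
    H72.IsBFunction g b := by
  obtain ⟨P, h⟩ := h
  refine ⟨P.natDegree + 1, fun t => P.coeff t, fun t => (P.coeff t).2, fun n => ?_⟩
  refine Eq.trans ?_ (h n).symm
  rw [Polynomial.eval_eq_sum_range, AddSubmonoidClass.coe_finsetSum, LinearMap.sum_apply]
  refine Finset.sum_congr rfl fun t _ => ?_
  rw [← Nat.cast_pow, ← Nat.cast_pow, Nat.cast_smul_eq_nsmul, ← map_nsmul]
  generalize n ^ t = m
  simp

theorem der_comm (u : MvPolynomial σ ℂ) (j l : σ) :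
    pderiv l (pderiv j u) = pderiv j (pderiv l u) := by
  classical
  induction u using MvPolynomial.induction_on with
  | C a => simp
  | add p q hp hq => simp [hp, hq]
  | mul_X p i hp =>
    simp only [Derivation.leibniz, map_add, smul_eq_mul, hp, pderiv_X, Pi.single_apply]
    split_ifs <;> simp <;> ring

variable [Fintype σ]

/-- the Euler operator -/
noncomputable def eu (w : σ → ℕ) (u : MvPolynomial σ ℂ) : MvPolynomial σ ℂ :=
  ∑ l, (w l : MvPolynomial σ ℂ) * (X l * pderiv l u)

theorem eu_X (w : σ → ℕ) (u : MvPolynomial σ ℂ) (j : σ) :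
    eu w (X j * u) = X j * eu w u + (w j : MvPolynomial σ ℂ) * (X j * u) := by
  classical
  have h : ∑ l, (w l : MvPolynomial σ ℂ) * (X l * (u * pderiv l (X j))) =
      (w j : MvPolynomial σ ℂ) * (X j * u) := by
    rw [Finset.sum_eq_single j (fun b _ hb => by simp [Pi.single_eq_of_ne' hb]) (by simp)]
    simp
  simp only [eu, Derivation.leibniz, smul_eq_mul, mul_add, Finset.sum_add_distrib, h,
    mul_left_comm _ (X j : MvPolynomial σ ℂ), ← Finset.mul_sum]

theorem eu_d (w : σ → ℕ) (u : MvPolynomial σ ℂ) (j : σ) :
    eu w (pderiv j u) = pderiv j (eu w u) - w j * pderiv j u := by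
  classical
  have h : ∑ l, (w l : MvPolynomial σ ℂ) * (pderiv l u * pderiv j (X l)) = w j * pderiv j u := by
    rw [Finset.sum_eq_single j (fun b _ hb => by simp [Pi.single_eq_of_ne hb]) (by simp)]
    simp
  simp only [eu, map_sum, Derivation.leibniz, smul_eq_mul, Derivation.map_natCast, mul_zero,
    add_zero, mul_add, Finset.sum_add_distrib, h, der_comm _ j, add_sub_cancel_right]

theorem chain (v : σ → MvPolynomial τ ℂ) (u : MvPolynomial σ ℂ) (j : τ) :
    pderiv j (aeval v u) = ∑ l, aeval v (pderiv l u) * pderiv j (v l) := by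
  classical
  induction u using MvPolynomial.induction_on with
  | C a => simp
  | add p q hp hq => simp only [map_add, hp, hq, add_mul, Finset.sum_add_distrib]
  | mul_X p l hp =>
    simp only [map_mul, aeval_X, Derivation.leibniz, hp, smul_eq_mul, map_add, pderiv_X, add_mul,
      Finset.sum_add_distrib, Finset.mul_sum, mul_assoc]
    congr 1
    rw [Finset.sum_eq_single l (fun b _ hb => by simp [Pi.single_eq_of_ne' hb]) (by simp)]
    simp

end DehX

open DehX in
theorem rDeh : SDeh := by
  classical
  intro σ τ _ _ ε w d F b c v hF w0 hc v0 v1 ⟨D, P, hP, hb⟩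
  have h1 : ∀ u j, pderiv j (aeval v u) = C (c j) * aeval v (pderiv (ε (some j)) u) :=
    fun u j => by
    rw [chain, ← ε.sum_comp, Fintype.sum_option, v0, Finset.sum_eq_single j
      (fun b _ hb => by simp [v1, Pi.single_eq_of_ne hb]) (by simp)]
    simp [v1, mul_comm]
  have h2 : ∀ Q ∈ H72.weyl σ, Good (aeval v F) fun n => aeval v (Q (F ^ (n + 1))) := by
    intro Q hQ
    rw [H72.weyl, ← Subalgebra.mem_toSubmodule, Algebra.adjoin_eq_span] at hQ
    induction hQ using Submodule.span_induction with
    | mem Q hQ =>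
      replace hQ := SetLike.mem_coe.1 hQ
      suffices H : ∃ δ : ℤ, (∀ n : ℕ, eu w (Q (F ^ (n + 1))) =
          (((n : MvPolynomial σ ℂ) + 1) * d + δ) * Q (F ^ (n + 1))) ∧
          Good (aeval v F) fun n => aeval v (Q (F ^ (n + 1))) from H.choose_spec.2
      induction hQ using Submonoid.closure_induction_left with
      | one =>
        refine ⟨0, fun n => ?_, 1, fun n => by simp⟩
        have h := (hF.pow (n + 1)).sum_weight_X_mul_pderiv
        simp only [nsmul_eq_mul, smul_eq_mul] at h
        simpa [eu] using h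
      | mul_left x hx y _ ih =>
        obtain ⟨δ, e, ih⟩ := ih
        rcases hx with ⟨j, rfl⟩ | ⟨j, rfl⟩
        · refine ⟨δ + w j, fun n => ?_, (ih.mul (v j)).congr fun n => by simp⟩
          simp only [Module.End.mul_apply, LinearMap.mulLeft_apply, eu_X, e]
          push_cast
          ring
        · refine ⟨δ - w j, fun n => ?_, ?_⟩
          · simp only [Module.End.mul_apply, Derivation.coeFn_coe, eu_d, e, Derivation.leibniz,
              smul_eq_mul, map_add, Derivation.map_natCast, Derivation.map_intCast,
              Derivation.map_one_eq_zero]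
            push_cast
            ring
          · obtain ⟨j, rfl⟩ := ε.surjective j
            rcases j with _ | j
            · refine (((ih.mul d).nat.add (ih.mul (d + δ))).add (Good.sum Finset.univ _
                fun l _ => (ih.der l).mul
                  (-((w (ε (some l)) : MvPolynomial τ ℂ) * X l)))).congr fun n => ?_
              have h3 := congrArg (aeval v) (e n)
              rw [eu, map_sum, ← ε.sum_comp, Fintype.sum_option] at h3
              simp only [map_mul, aeval_X, v0, v1, w0, map_add, map_natCast, map_intCast,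
                map_one] at h3
              have h4 : ∀ l, -((w (ε (some l)) : MvPolynomial τ ℂ) * X l) *
                  pderiv l (aeval v (y (F ^ (n + 1)))) =
                  -((w (ε (some l)) : MvPolynomial τ ℂ) * (C (c l) * X l *
                    aeval v (pderiv (ε (some l)) (y (F ^ (n + 1)))))) := fun l => by
                rw [h1]
                ring
              simp only [Module.End.mul_apply, Derivation.coeFn_coe, h4, Finset.sum_neg_distrib]
              push_cast at h3
              linear_combination h3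
            · refine ((ih.der j).mul (C (c j)⁻¹)).congr fun n => ?_
              rw [h1, ← mul_assoc, ← map_mul, inv_mul_cancel₀ (hc j), map_one, one_mul]
              rfl
    | zero => simpa using Good.zero
    | add P Q _ _ h1 h2 => simpa only [LinearMap.add_apply, map_add] using h1.add h2
    | smul a P _ h => exact (h.mul (C a)).congr fun n => by simp [smul_eq_C_mul]
  refine ((Good.sum (Finset.range D) _ fun t _ => (h2 _ (hP t)).pow t).congr fun n => ?_).out
  have h := congrArg (aeval v) (hb n)
  rw [map_smul, map_pow] at h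
  rw [← h, map_sum]
  refine Finset.sum_congr rfl fun t _ => ?_
  simp [smul_eq_C_mul]

end Pool.Agent.MP_5d9b3c_ag.O4
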