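import Pool.Agent.MP_5d9b3c_ag.O4.Defs
import Pool.Agent.MP_5d9b3c_ag.H10.Count
import Pool.Agent.MP_ee8c61_ag.H10.Defs

/-! Forms of one degree: the statements. -/

namespace Pool.Agent.MP_5d9b3c_ag.O4

open MvPolynomial

noncomputable section

/-- The substitution that describes the points whose first unit coordinate has index `i`. -/
def sb (p : ℕ) {n : ℕ} (i : Fin (n + 1)) : Fin (n + 1) → MvPolynomial (Fin n) ℤ :=
  i.insertNth 1 fun l => C (if l.castSucc < i then (p : ℤ) else 1) * X l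

/-- The series of the ideal and of its charts. -/
def SCount : Prop := ∀ (n r d p : ℕ) (f : Fin r → MvPolynomial (Fin (n + 1)) ℤ), p.Prime → 0 < d →
  (∀ j, (f j).IsHomogeneous d) → ∃ (c : Fin (n + 1) → ℚ) (R : Polynomial ℚ),
    (1 - PowerSeries.C (((p : ℚ) ^ (n + 1))⁻¹) * PowerSeries.X ^ d) * H10.wser f p =
      ∑ i, PowerSeries.C (c i) * H10.wser (fun j => aeval (sb p i) (f j)) p +
        (R : PowerSeries ℚ)

/-- Dehomogenisation of the functional equation. -/
def SDeh : Prop := ∀ (σ τ : Type) [Fintype σ] [Fintype τ] (ε : Option τ ≃ σ) (w : σ → ℕ) (d : ℕ)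
  (F : MvPolynomial σ ℂ) (b : Polynomial ℂ) (c : τ → ℂ) (v : σ → MvPolynomial τ ℂ),
  F.IsWeightedHomogeneous w d → w (ε none) = 1 → (∀ j, c j ≠ 0) → v (ε none) = 1 →
  (∀ j, v (ε (some j)) = C (c j) * X j) → H72.IsBFunction F b → H72.IsBFunction (aeval v F) b

/-- The order at the origin gives a root. -/
def SRoot : Prop := ∀ (n r d : ℕ) (f : Fin r → MvPolynomial (Fin (n + 1)) ℂ) (b : Polynomial ℂ),
  (∀ j, (f j).IsHomogeneous d) → f ≠ 0 → LogGeneral (Ideal.span (Set.range f)) d →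
  MP_ee8c61_ag.H10.IsBS f b → b.eval (-((n + 1 : ℂ) / d)) = 0

end

end Pool.Agent.MP_5d9b3c_ag.O4
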