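import Pool.Agent.MP_5d9b3c_ag.O4.RCht
import Pool.Agent.MP_5d9b3c_ag.O4.Spec
import Pool.Agent.MP_ee8c61_ag.TW.Final

/-! The order at the origin gives a root. -/

namespace Pool.Agent.MP_ee8c61_ag.N3.O4

open MvPolynomial M3 N3.M3E Finset
open Pool.Agent.MP_ee8c61_ag.TC (Ord Indep red rowInd)
open Pool.Agent.MP_5d9b3c_ag.O4 (Hy SRoot)

theorem rRoot : SRoot := by
  intro n r d F b hf h0 hL hb
  obtain ⟨j, f0⟩ : ∃ j, F j ≠ 0 := Function.ne_iff.1 h0
  obtain ⟨h, m, c, κ, e, h0, hh, hm, he, H⟩ := Hy.pos hL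
  have d0 : 0 < d := Nat.pos_of_ne_zero fun e => by simp [e] at he
  obtain ⟨_, gd, ov, β, Q, bs⟩ := TC.rBas _ r F j b hb f0
  have f1 := M3B1.ip_ne f0
  obtain ⟨M, o, μ, hM, C⟩ := rMod eout B1.sb1raw gd
    (by rw [homogeneousComponent_of_mem (hf j), if_neg d0.ne]) fun v hv => (ov _).2
      ⟨fun p => ((MP_ee8c61_ag.TC.rowOrdK n v hv).mem 0 p).2 fun _ h => absurd h (Nat.not_lt_zero _),
        fun i => by
          by_cases k : F i = 0
          · rw [k, map_zero, zero_div]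
            exact zero_mem _
          · refine Or.inr ?_
            rw [DV.div _ (M3B1.ip_ne k) f1, hv d _ k (hf i), hv d _ f0 (hf j), sub_self]⟩
  have B := eout.bas _ _ M hM
  have hF : ∀ i, M3.ip _ (F i) / M3.ip _ (F j) ∈ Rb (n + 1) := fun i =>
    mem_Rb.2 fun V hV => ((ov V).1 hV).2 i
  obtain ⟨ao, P1, P0⟩ := pos eout hM C (hf j) f0
  set P : M.J → ℤ := M.aa - d • μ with hP
  have fr : M.Free P := by
    classical
    have h1 : M.Free (-μ) := ⟨univ.image fun l => M3.ip _ (X l), fun g hg => by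
      obtain ⟨l, -, rfl⟩ := mem_image.1 hg
      exact C.sec l, fun V hV => by
      obtain ⟨l, hl⟩ := C.gen V hV
      exact ⟨_, mem_image_of_mem _ (mem_univ l), hl⟩⟩
    have := B.free_add _ _ (B.free_aa 1) (B.free_nsmul _ d h1)
    rwa [one_smul, smul_neg, ← sub_eq_add_neg] at this
  have ky := fun V hV hle => key eout hM C hf f0 hF hh he H (dd := red P)
    (fun j => by unfold red; split_ifs <;> simp) (by simp [red, P1])
    (fun j hj => by
      have : 0 < P j := by simpa [hP, Mod.aa] using hj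
      simp [red, this]) (V := V) hV hle
  have hk : M.k o = n := le_antisymm (rKle eout hM C.ord) (ky _ (B.ov_v o) le_rfl).1
  have sec : ∀ l, M3.ip _ h / M3.ip _ (F j) ^ c * (M3.ip _ (X l) * M3.ip _ (X 0) ^ e) ∈
      M.R o (m • (M.kk + M.e o + red P)) := fun l V hV hle => by
    have := B.oc_mul V _ _ _ _ (ky V hV hle).2
      (B.oc_mul V _ _ _ _ (C.sec l V hV) (B.oc_pow V _ _ e (C.sec 0 V hV)))
    rwa [show m • (M.kk + M.e o + red P) + (e + 1) • μ + (-μ + e • -μ) =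
      m • (M.kk + M.e o + red P) by rw [succ_nsmul, smul_neg]; abel] at this
  have x0 : ∀ l : Fin (n + 1), M3.ip _ (X l) ≠ 0 := fun l => M3B1.ip_ne (X_ne_zero l)
  have h1 := M3B1.ip_ne h0
  have f2 := pow_ne_zero c f1
  have vx := C.ord 1 (X 0) (X_ne_zero _) (isHomogeneous_X _ _)
  have := TC.sabs n _ ((n + 1 : ℚ) / d) b β Q M o P m _ _ bs hM (by
      have : (d : ℚ) ≠ 0 := Nat.cast_ne_zero.2 d0.ne'
      simp [Mod.ex, hk, ao, this]) fr P0 P1 hm (sec 0)
    (mul_ne_zero (div_ne_zero h1 f2) (mul_ne_zero (x0 0) (pow_ne_zero _ (x0 0)))) (by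
      rw [DV.mul _ _ _ (div_ne_zero h1 f2) (mul_ne_zero (x0 0) (pow_ne_zero _ (x0 0))),
        DV.div _ h1 f2, DV.mul _ _ _ (x0 0) (pow_ne_zero _ (x0 0)), DV.pow, DV.pow, vx,
        C.ord κ h h0 hh, C.ord d _ f0 (hf j), hk]
      have : (κ : ℤ) + (e + 1) + (n + 1) * m = c * d := by exact_mod_cast he
      push_cast
      linarith)
    (fun i => sec i.succ) (by
      refine Eq.subst (motive := Indep (M.v o)) (funext fun i => ?_) (rowInd n _ C.ord)
      have := x0 0
      field_simp)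
  simpa using this

end Pool.Agent.MP_ee8c61_ag.N3.O4
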