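import Pool.Agent.MP_5d9b3c_ag.O4.Main
import Pool.Agent.MP_5d9b3c_ag.O4.Count
import Pool.Agent.MP_5d9b3c_ag.O4.Deh
import Pool.Agent.MP_5d9b3c_ag.O4.Root
import Pool.Agent.MP_5d9b3c_ag.O3.Final

/-! The theorem for the polynomials `y_1 f_1 + ⋯ + y_r f_r`. -/

namespace Pool.Agent.MP_5d9b3c_ag.O4

open MvPolynomial H48G H72

theorem main {r d : ℕ} {f : Fin r → MvPolynomial (Fin 4) ℤ} (hf : ∃ i, f i ≠ 0)
    (hd : ∀ i, (f i).IsHomogeneous d)
    (hL : LogGeneral (n := 3) (Ideal.span (Set.range fun i => map (Int.castRingHom ℂ) (f i))) d)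
    {F : MvPolynomial (Fin r ⊕ Fin 4) ℤ} (hF : F = ∑ i, X (Sum.inl i) * rename Sum.inr (f i))
    {p : ℕ} (hp : p.Prime) {A B : Polynomial ℚ} (hAB : IsCoprime A B)
    (hP : (B : PowerSeries ℚ) * poincare F p = A) {T : ℂ} (hT : Polynomial.aeval T B = 0)
    {b : Polynomial ℂ} (hb : IsBFunction (map (Int.castRingHom ℂ) F) b) :
    b.eval ((-(Real.log ‖T‖ / Real.log p) : ℝ) : ℂ) = 0 := by
  have e : comb (Fin.cons 0 f : Fin (r + 1) → _) = F := by simp [comb, hF]
  refine main_of (d := d) MP_ee8c61_ag.N3.core rCount rDeh MP_ee8c61_ag.N3.O4.rRoot (Fin.cons 0 f)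
    (Or.inr rfl) (fun h => ?_) (Fin.cases (isHomogeneous_zero _ _ _) hd) (by
      rw [Fin.range_fin_succ, Fin.cons_zero, map_zero, Ideal.span_insert_zero]
      exact hL) hp hAB (e ▸ hP) hT (e ▸ hb)
  obtain ⟨i, hi⟩ := hf
  have h1 := congrArg (aeval (Sum.elim (fun j => if j = i then (Polynomial.X : Polynomial
    (MvPolynomial (Fin 4) ℤ)) else 0) fun l => Polynomial.C (X l)))
    (totalDegree_eq_zero_iff_eq_C.1 (e ▸ h))
  have h2 : ∀ g : MvPolynomial (Fin 4) ℤ, aeval (fun l => (Polynomial.C (X l) :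
      Polynomial (MvPolynomial (Fin 4) ℤ))) g = Polynomial.C g := fun g => by
    induction g using MvPolynomial.induction_on <;> simp_all
  rw [aeval_C, hF] at h1
  simp only [map_sum, map_mul, aeval_X, aeval_rename, Sum.elim_inl, Sum.elim_comp_inr, h2, ite_mul,
    zero_mul, Finset.sum_ite_eq', Finset.mem_univ, if_true] at h1
  rw [eq_intCast, ← Polynomial.C_eq_intCast, mul_comm] at h1
  exact hi ((Polynomial.coeff_C_mul_X _ _).symm.trans ((congrArg (Polynomial.coeff · 1) h1).trans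
    (Polynomial.coeff_C_succ (n := 0))))

end Pool.Agent.MP_5d9b3c_ag.O4
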