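import Pool.Agent.MP_5d9b3c_ag.O4.Spec
import Pool.Agent.MP_5d9b3c_ag.O3I.Main
import Pool.Agent.MP_ee8c61_ag.TC.RCht

/-! Forms of one degree in four variables: the assembly. -/

namespace Pool.Agent.MP_5d9b3c_ag.O4

open MvPolynomial H48G H72 H10 O3I

variable {p n r d : ℕ}

theorem map_sb (i : Fin (n + 1)) (g : MvPolynomial (Fin (n + 1)) ℤ) :
    map (Int.castRingHom ℂ) (aeval (sb p i) g) =
      aeval (fun l => map (Int.castRingHom ℂ) (sb p i l)) (map (Int.castRingHom ℂ) g) := by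
  induction g using MvPolynomial.induction_on with
  | C a => simp
  | add f g h1 h2 => simp only [map_add, h1, h2]
  | mul_X f l h => simp only [map_mul, h, aeval_X, map_X]

/-- The scaling factors. -/
def cf (p : ℕ) (i : Fin (n + 1)) (l : Fin n) : ℂ := if l.castSucc < i then p else 1

theorem cf_ne (hp : p.Prime) (i : Fin (n + 1)) (l : Fin n) : cf p i l ≠ 0 := by
  rw [cf]
  split_ifs
  exacts [Nat.cast_ne_zero.2 hp.ne_zero, one_ne_zero]

theorem sb_self (i : Fin (n + 1)) : map (Int.castRingHom ℂ) (sb p i i) = 1 := by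
  rw [sb, Fin.insertNth_apply_same, map_one]

theorem sb_succ (i : Fin (n + 1)) (l : Fin n) :
    map (Int.castRingHom ℂ) (sb p i (i.succAbove l)) = C (cf p i l) * X l := by
  rw [sb, Fin.insertNth_apply_succAbove, map_mul, map_C, map_X, cf]
  split_ifs <;> simp

theorem sb_ne (hp : p.Prime) (i : Fin (n + 1)) {g : MvPolynomial (Fin (n + 1)) ℤ}
    (hg : g.IsHomogeneous d) (h0 : g ≠ 0) : aeval (sb p i) g ≠ 0 := fun h => by
  have h1 := map_sb (p := p) i g
  rw [h, map_zero] at h1
  refine mul_ne_zero (X_ne_zero (R := ℂ) i) (fun e => h0 (map_injective (Int.castRingHom ℂ)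
    Int.cast_injective (e.trans (map_zero _).symm))) (MvPolynomial.funext fun x => ?_)
  rw [map_mul, eval_X, map_zero]
  refine mul_eq_zero.2 (or_iff_not_imp_left.2 fun k => ?_)
  have h2 := congrArg (aeval fun l => x (i.succAbove l) / x i / cf p i l) h1
  rw [map_zero, ← AlgHom.comp_apply, comp_aeval] at h2
  have h3 := MP_ee8c61_ag.TC.RCht.hom (hg.map (Int.castRingHom ℂ)) (x i) fun l =>
    aeval (fun l => x (i.succAbove l) / x i / cf p i l) (map (Int.castRingHom ℂ) (sb p i l))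
  rw [← h2, mul_zero] at h3
  refine Eq.trans (congrArg (aeval · _) (funext fun l => ?_)) h3
  refine i.succAboveCases ?_ (fun l => ?_) l
  · rw [sb_self, map_one, mul_one]
  · rw [sb_succ, map_mul, aeval_X, aeval_C, Algebra.algebraMap_self_apply,
      mul_div_cancel₀ _ (cf_ne hp i l), mul_div_cancel₀ _ k]

theorem wh_ren {σ τ : Type} {g : MvPolynomial τ ℂ} (hg : g.IsHomogeneous d) :
    (rename (Sum.inr : τ → σ ⊕ τ) g).IsWeightedHomogeneous (Sum.elim 0 1) d := by
  rw [g.as_sum, map_sum]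
  refine IsWeightedHomogeneous.sum _ _ _ fun s hs => ?_
  rw [rename_monomial]
  refine isWeightedHomogeneous_monomial _ _ _ ?_
  rw [← hg (mem_support_iff.1 hs), Finsupp.weight_apply, Finsupp.weight_apply,
    Finsupp.sum_mapDomain_index_inj Sum.inr_injective]
  rfl

/-- The functional equation of a chart. -/
theorem deh (hD : SDeh) (hp : p.Prime) {f : Fin (r + 1) → MvPolynomial (Fin (n + 1)) ℤ}
    (hf : ∀ j, (f j).IsHomogeneous d) {b : Polynomial ℂ}
    (hb : IsBFunction (map (Int.castRingHom ℂ) (comb f)) b) (i : Fin (n + 1)) :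
    IsBFunction (map (Int.castRingHom ℂ) (comb fun j => aeval (sb p i) (f j))) b := by
  let ε : Option (Fin r ⊕ Fin n) ≃ Fin r ⊕ Fin (n + 1) :=
    (Equiv.optionEquivSumPUnit.{0} _).trans ((Equiv.sumAssoc _ _ _).trans ((Equiv.refl _).sumCongr
      ((Equiv.optionEquivSumPUnit.{0} _).symm.trans (finSuccEquiv' i).symm)))
  have e0 : ε none = .inr i := by simp [ε]
  have := hD _ _ ε (Sum.elim 0 1) d _ b (Sum.elim 1 (cf p i))
    (Sum.elim (fun a => X (.inl a)) fun l => rename .inr (map (Int.castRingHom ℂ) (sb p i l)))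
    (by
      simp only [comb, map_add, map_sum, map_mul, map_X, map_rename]
      refine (wh_ren ((hf 0).map _)).add (IsWeightedHomogeneous.sum _ _ _ fun a _ => ?_)
      simpa using (isWeightedHomogeneous_X ℂ (Sum.elim 0 1) (Sum.inl a)).mul
        (wh_ren ((hf a.succ).map (Int.castRingHom ℂ))))
    (by rw [e0]; rfl) (by
      rintro (a | l)
      exacts [one_ne_zero, cf_ne hp i l])
    (by rw [e0, Sum.elim_inr, sb_self, map_one]) (by
      rintro (a | l)
      · simp [ε]
      · have : ε (some (.inr l)) = .inr (i.succAbove l) := by simp [ε]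
        rw [this, Sum.elim_inr, sb_succ, map_mul, rename_C, rename_X]
        rfl) hb
  refine Eq.subst (motive := (IsBFunction · b)) ?_ this
  have k : ∀ g : MvPolynomial (Fin (n + 1)) ℂ, aeval (fun l => rename (Sum.inr : _ → Fin r ⊕ _)
      (map (Int.castRingHom ℂ) (sb p i l))) g =
      rename .inr (aeval (fun l => map (Int.castRingHom ℂ) (sb p i l)) g) := fun g => by
    rw [← AlgHom.comp_apply, comp_aeval]
  simp only [comb, map_add, map_sum, map_mul, map_X, map_rename, aeval_X, aeval_rename,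
    Sum.elim_comp_inr, Sum.elim_inl, map_sb, k]

variable [Fact p.Prime] {T : ℂ} {b : Polynomial ℂ}

theorem nop4 (hc : Core) (hC : SCount) {f : Fin r → MvPolynomial (Fin 4) ℤ} (h0 : f ≠ 0)
    (hd : 0 < d) (hf : ∀ j, (f j).IsHomogeneous d) (T0 : T ≠ 0) (hT : T ^ d ≠ p ^ 4)
    (hb : ∀ i, MP_ee8c61_ag.H10.IsBS
      (fun j => map (Int.castRingHom ℂ) (aeval (sb p i) (f j))) b)
    (hne : b.eval ((-(Real.log ‖T‖ / Real.log p) : ℝ) : ℂ) ≠ 0) :
    NoP T ((wser f p).map (algebraMap ℚ ℂ)) := by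
  have hp : p.Prime := Fact.out
  obtain ⟨c, R, h⟩ := hC 3 r d p f hp hd hf
  obtain ⟨j, hj⟩ := Function.ne_iff.1 h0
  obtain ⟨Q, P, h1, h2⟩ := NoP.sum (T := T) (S := fun i : Fin 4 => PowerSeries.C (c i : ℂ) *
    (wser (fun j => aeval (sb p i) (f j)) p).map (algebraMap ℚ ℂ)) Finset.univ fun i _ => by
      obtain ⟨Q, P, h1, h2⟩ := nop_w (p := p) (f := fun j => aeval (sb p i) (f j))
        (Function.ne_iff.2 ⟨j, sb_ne hp i (hf j) hj⟩) fun j hj =>
          hc _ _ j p b T hj T0 (hb i) hne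
      exact ⟨Q, Polynomial.C (c i : ℂ) * P, h1, by
        rw [Polynomial.coe_mul, Polynomial.coe_C, ← h2, mul_left_comm]⟩
  have h3 := congrArg (PowerSeries.map (algebraMap ℚ ℂ)) h
  simp only [map_mul, map_sub, map_add, map_one, PowerSeries.map_C, PowerSeries.map_X, map_inv₀,
    map_natCast (algebraMap ℚ ℂ), map_pow, map_sum, ← Polynomial.polynomial_map_coe,
    eq_ratCast (algebraMap ℚ ℂ) (c _)] at h3
  refine ⟨Q * (1 - Polynomial.C ((p : ℂ) ^ 4)⁻¹ * Polynomial.X ^ d),
    P + Q * R.map (algebraMap ℚ ℂ), ?_, ?_⟩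
  · simp only [Polynomial.eval_mul, Polynomial.eval_sub, Polynomial.eval_one, Polynomial.eval_C,
      Polynomial.eval_pow, Polynomial.eval_X]
    exact mul_ne_zero h1 fun e => hT ((inv_mul_eq_one₀ (pow_ne_zero 4
      (Nat.cast_ne_zero.2 hp.ne_zero))).1 (sub_eq_zero.1 e).symm).symm
  · simp only [Polynomial.coe_sub, Polynomial.coe_mul, Polynomial.coe_X, Polynomial.coe_C,
      Polynomial.coe_one, Polynomial.coe_add, Polynomial.coe_pow, ← h2]
    rw [mul_assoc, h3, mul_add]

theorem vert (hd : 0 < d) (hne : b.eval ((-(Real.log ‖T‖ / Real.log p) : ℝ) : ℂ) ≠ 0)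
    (h : b.eval (-(((3 : ℕ) + 1 : ℂ) / d)) = 0) : T ^ d ≠ p ^ 4 := fun e => by
  have lp := (Real.log_pos (Nat.one_lt_cast.2 (Fact.out : p.Prime).one_lt : (1 : ℝ) < p)).ne'
  have h7 := congrArg (fun z : ℂ => Real.log ‖z‖) e
  simp only [norm_pow, Complex.norm_natCast, Real.log_pow] at h7
  have h9 : (d : ℝ) ≠ 0 := Nat.cast_ne_zero.2 hd.ne'
  have h10 : Real.log ‖T‖ / Real.log p = 4 / d := by
    rw [div_eq_div_iff lp h9, mul_comm, h7]
    norm_num
  rw [h10] at hne
  refine hne (Eq.trans (congrArg b.eval ?_) h)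
  push_cast
  norm_num

theorem nop5 (hc : Core) (hC : SCount) (hR : SRoot) {f : Fin r → MvPolynomial (Fin 4) ℤ}
    (h0 : f ≠ 0) (hf : ∀ j, (f j).IsHomogeneous d)
    (hL : LogGeneral (n := 3) (Ideal.span (Set.range fun j => map (Int.castRingHom ℂ) (f j))) d)
    (T0 : T ≠ 0) (hb : MP_ee8c61_ag.H10.IsBS (fun j => map (Int.castRingHom ℂ) (f j)) b)
    (hb' : ∀ i, MP_ee8c61_ag.H10.IsBS
      (fun j => map (Int.castRingHom ℂ) (aeval (sb p i) (f j))) b)
    (hne : b.eval ((-(Real.log ‖T‖ / Real.log p) : ℝ) : ℂ) ≠ 0) :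
    NoP T ((wser f p).map (algebraMap ℚ ℂ)) := by
  have hd : 0 < d := by
    obtain ⟨_, m, c, κ, -, -, h, -⟩ := hL
    exact Nat.pos_of_ne_zero fun e => by simp [e] at h
  refine nop4 hc hC h0 hd hf T0 (vert hd hne (hR 3 r d _ b (fun j => (hf j).map _)
    (fun e => h0 (funext fun j => ?_)) hL hb)) hb' hne
  exact map_injective (Int.castRingHom ℂ) Int.cast_injective
    ((congrFun e j).trans (map_zero _).symm)

omit [Fact p.Prime] in
theorem main_of (hc : Core) (hC : SCount) (hD : SDeh) (hR : SRoot)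
    (f : Fin (r + 1) → MvPolynomial (Fin 4) ℤ) (hr : r = 0 ∨ f 0 = 0)
    (hn : (comb f).totalDegree ≠ 0) (hf : ∀ j, (f j).IsHomogeneous d)
    (hL : LogGeneral (n := 3) (Ideal.span (Set.range fun j => map (Int.castRingHom ℂ) (f j))) d)
    (hp : p.Prime) {A B : Polynomial ℚ} (hAB : IsCoprime A B)
    (hP : (B : PowerSeries ℚ) * poincare (comb f) p = A) (hT : Polynomial.aeval T B = 0)
    (hb : IsBFunction (map (Int.castRingHom ℂ) (comb f)) b) :
    b.eval ((-(Real.log ‖T‖ / Real.log p) : ℝ) : ℂ) = 0 := by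
  have := Fact.mk hp
  by_contra hne
  have T0 := P3.root_ne hAB hP hT
  have h1 : b.eval (-1) = 0 := by
    obtain ⟨d, P, h7, h8⟩ := hb
    refine H22.root_neg_one (fun h9 => hn ?_) h7 h8
    rwa [totalDegree, support_map_of_injective _ Int.cast_injective] at h9
  have h0 : f ≠ 0 := by
    rintro rfl
    simp [comb] at hn
  have hb' := deh (n := 3) hD hp hf hb
  rcases hr with rfl | hr
  · have e : ∀ {k : ℕ} (g : Fin 1 → MvPolynomial (Fin k) ℤ), comb g = rename Sum.inr (g 0) :=
      fun g => by simp [comb]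
    simp only [e, map_rename] at hb hb'
    obtain ⟨D, P, h2, h3⟩ := nop5 (p := p) hc hC hR h0 hf hL T0 (isBS_one _ b hb)
      (fun i => isBS_one _ b (hb' i)) hne
    refine h2 (H48G.no_pole hAB hP hT (Eq.trans (congrArg (_ * PowerSeries.map _ ·) ?_) h3))
    ext n
    rw [poincare, wser, PowerSeries.coeff_mk, PowerSeries.coeff_mk, e]
    congr 2
    refine Nat.card_congr ((Equiv.sumArrowEquivProdArrow _ _ _).trans
      (Equiv.uniqueProd _ _) |>.subtypeEquiv fun x => ?_)
    rw [aeval_rename, Fin.forall_fin_one]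
    rfl
  · have e : comb f = H10.lin fun i => f i.succ := by simp [comb, H10.lin, hr]
    simp only [comb, hr, map_zero, zero_add, map_sum, map_mul, map_X, map_rename] at hb hb'
    rw [e] at hP
    rw [Fin.range_fin_succ, hr, map_zero, Ideal.span_insert_zero] at hL
    obtain ⟨D, P, h2, h3⟩ := nop5 (p := p) (f := fun i : Fin r => f i.succ) hc hC hR
      (fun h4 => h0 (funext fun j => Fin.cases hr (congrFun h4) j)) (fun j => hf _) hL T0
      (isBS_of _ b hb) (fun i => isBS_of _ b (hb' i)) hne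
    have h4 := congrArg (PowerSeries.map (algebraMap ℚ ℂ)) (countN hp fun i : Fin r => f i.succ)
    have h5 := H48G.no_pole hAB hP hT (Q := D * (1 - Polynomial.C (p : ℂ)⁻¹ * Polynomial.X))
      (P := Polynomial.C (p : ℂ)⁻¹ * D + Polynomial.C (1 - (p : ℂ)⁻¹) * P) (by
        simp only [map_mul, map_sub, map_add, map_one, PowerSeries.map_C, PowerSeries.map_X,
          map_inv₀, map_natCast] at h4
        simp only [Polynomial.coe_sub, Polynomial.coe_mul, Polynomial.coe_X, Polynomial.coe_C,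
          Polynomial.coe_one, Polynomial.coe_add, mul_assoc, h4, ← h3, map_sub, map_one]
        ring)
    have hp0 : (p : ℂ) ≠ 0 := Nat.cast_ne_zero.2 hp.ne_zero
    have h6 : T = p := by
      simp only [Polynomial.eval_mul, h2, Polynomial.eval_sub, Polynomial.eval_one, mul_eq_zero,
        Polynomial.eval_C, Polynomial.eval_X, false_or] at h5
      exact ((inv_mul_eq_one₀ hp0).1 (sub_eq_zero.1 h5).symm).symm
    rw [h6, Complex.norm_natCast, div_self (Real.log_pos (Nat.one_lt_cast.2 hp.one_lt)).ne'] at hne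
    exact hne (by simpa using h1)

end Pool.Agent.MP_5d9b3c_ag.O4
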