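import Pool.Agent.MP_5d9b3c_ag.O4.Defs
import Pool.Agent.MP_ee8c61_ag.TC.RQuo

/-! The hypothesis on a coordinate hyperplane of a chart. -/

namespace Pool.Agent.MP_5d9b3c_ag.O4

open MvPolynomial MP_ee8c61_ag.TC MP_ee8c61_ag.TC.RQuo

/-- The condition on all charts. -/
def Hy {n : ℕ} (I : Ideal (MvPolynomial (Fin (n + 1)) ℂ)) (h : MvPolynomial (Fin (n + 1)) ℂ)
    (m c : ℕ) : Prop :=
  ∀ (B : Type) [CommRing B] [IsDomain B] [Algebra ℂ B] (z : Fin n → B)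
    (D : Fin n → Derivation ℂ B B) (ψ : Fin (n + 1) → B) (a : Fin n → ℕ),
    (aeval (R := ℂ) z).toRingHom.Etale → (∀ i j, D i (z j) = if i = j then 1 else 0) →
    (∃ l, IsUnit (ψ l)) → I.map (aeval ψ) = Ideal.span {∏ i, z i ^ a i} →
    (∏ i, z i ^ a i) ^ c ∣ aeval ψ h * (jac D ψ * ∏ i with a i ≠ 0, z i) ^ m

theorem Hy.pos {n : ℕ} {I : Ideal (MvPolynomial (Fin (n + 1)) ℂ)} {d : ℕ} (H : LogGeneral I d) :
    ∃ (h : MvPolynomial (Fin (n + 1)) ℂ) (m c κ e : ℕ), h ≠ 0 ∧ h.IsHomogeneous κ ∧ 0 < m ∧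
      κ + (e + 1) + (n + 1) * m = c * d ∧ Hy I h m c := by
  obtain ⟨h, m, c, κ, h0, hh, hlt, H⟩ := H
  rcases m.eq_zero_or_pos with rfl | hm
  · have h1 : κ * (n + 2) + (n + 2) ≤ c * (n + 2) * d := by
      have := Nat.mul_le_mul_right (n + 2) (Nat.succ_le_of_lt hlt)
      nlinarith
    refine ⟨h ^ (n + 2), 1, c * (n + 2), κ * (n + 2), c * (n + 2) * d - (κ * (n + 2) + (n + 2)),
      pow_ne_zero _ h0, hh.pow _, one_pos, by omega, fun B _ _ _ z D ψ a h1 h2 h3 h4 => ?_⟩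
    have := H B z D ψ a h1 h2 h3 h4
    rw [pow_zero, mul_one] at this
    rw [pow_mul, map_pow]
    exact (pow_dvd_pow_of_dvd this _).mul_right _
  · exact ⟨h, m, c, κ, c * d - (κ + (n + 1) * m) - 1, h0, hh, hm, by omega, H⟩

theorem quo {n : ℕ} {I : Ideal (MvPolynomial (Fin (n + 1)) ℂ)} {h : MvPolynomial (Fin (n + 1)) ℂ}
    {m c : ℕ} (H : Hy I h m c) {A : Type} [CommRing A] [Algebra ℂ A] (z : Fin (n + 1) → A)
    (D : Fin (n + 1) → Derivation ℂ A A) (l0 : Fin (n + 1)) (ψ : Fin (n + 1) → A) (a : Fin n → ℕ)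
    (het : (aeval (R := ℂ) z).toRingHom.Etale) (hD : ∀ i j, D i (z j) = if i = j then 1 else 0)
    (hP : (Ideal.span {z l0}).IsPrime) (hψ : ∃ l, IsUnit (ψ l))
    (hg : I.map (aeval ψ) = Ideal.span {∏ i, z (l0.succAbove i) ^ a i}) :
    ∃ y : A, z l0 ∣ aeval ψ h * (jac (fun i => D (l0.succAbove i)) ψ *
      ∏ i with a i ≠ 0, z (l0.succAbove i)) ^ m - (∏ i, z (l0.succAbove i) ^ a i) ^ c * y := by
  let π : A →ₐ[ℂ] A ⧸ Ideal.span {z l0} := Ideal.Quotient.mkₐ ℂ _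
  have hπ : Function.Surjective π := Ideal.Quotient.mk_surjective
  have hk : ∀ x, π x = 0 ↔ z l0 ∣ x := fun x =>
    Ideal.Quotient.eq_zero_iff_mem.trans Ideal.mem_span_singleton
  have hd : ∀ i x, π x = 0 → π (D (l0.succAbove i) x) = 0 := fun i x hx => by
    obtain ⟨y, rfl⟩ := (hk x).1 hx
    rw [hk, Derivation.leibniz, hD, if_neg (l0.succAbove_ne i), smul_zero, add_zero, smul_eq_mul]
    exact dvd_mul_right _ _
  have hD' : ∀ i x, Derivation.liftOfSurjective hπ (hd i) (π x) = π (D (l0.succAbove i) x) :=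
    fun i x => Derivation.liftOfSurjective_apply hπ (hd i) x
  have ev : ∀ p : MvPolynomial (Fin (n + 1)) ℂ, aeval (fun l => π (ψ l)) p = π (aeval ψ p) :=
    fun p => (comp_aeval_apply ψ π p).symm
  have e1 : π (∏ i, z (l0.succAbove i) ^ a i) = ∏ i, π (z (l0.succAbove i)) ^ a i := by
    simp only [map_prod, map_pow]
  obtain ⟨y, hy⟩ := H (A ⧸ Ideal.span {z l0}) (fun i => π (z (l0.succAbove i)))
    (fun i => Derivation.liftOfSurjective hπ (hd i)) (fun l => π (ψ l)) a (etale z het l0 _ rfl)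
    (fun i j => by
      rw [hD', hD]
      by_cases e : i = j
      · rw [if_pos e, if_pos (congrArg _ e), map_one]
      · rw [if_neg e, if_neg fun x => e (Fin.succAbove_right_injective x), map_zero])
    (hψ.imp fun l hl => hl.map π)
    (by
      rw [← comp_aeval, ← Ideal.map_mapₐ, hg, Ideal.map_span, Set.image_singleton, e1])
  obtain ⟨y, rfl⟩ := hπ y
  refine ⟨y, (hk _).1 ?_⟩
  have e2 := jac_map π (fun i => D (l0.succAbove i)) _ hD' ψ
  rw [ev, e2, ← e1] at hy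
  rw [map_sub, sub_eq_zero, map_mul, map_mul _ (_ ^ c), map_pow, map_pow, map_mul, map_prod]
  exact hy

end Pool.Agent.MP_5d9b3c_ag.O4
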