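import Pool.Agent.MP_5d9b3c_ag.O4.RMod
import Pool.Agent.MP_5d9b3c_ag.O4.RQuo
import Pool.Agent.MP_ee8c61_ag.TC.RCht
import Pool.Agent.MP_ee8c61_ag.TC.RDet
import Pool.Agent.MP_ee8c61_ag.N3L.Loc

/-! The pluricanonical form is a section on the exceptional divisor. -/

namespace Pool.Agent.MP_ee8c61_ag.N3.O4

open MvPolynomial M3 N3.M3E Finset
open Pool.Agent.MP_ee8c61_ag.TC (Ord OrdK rowOrdK rowDet jac)
open Pool.Agent.MP_ee8c61_ag.TC.RCht (hom res)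
open Pool.Agent.MP_5d9b3c_ag.O4 (Hy quo)
open Pool.Agent.MP_ee8c61_ag.M3L (aw aw_val le_aw away mem_aw et_aw inv_mem_aw aeval_ip)

variable {n : ℕ} {M : Mod (n + 1)}

/-- The exponent of a coordinate. -/
noncomputable def ex (b : M.ι) (c : M.J → ℤ) (l : Fin (n + 1)) : ℕ := ∑ j with M.S.lab b j = some l, (c j).toNat

theorem mon_prod (b : M.ι) {c : M.J → ℤ} (hc : 0 ≤ c) :
    M.mon b c = ∏ l, M.S.z b l ^ ex b c l := by
  classical
  rw [Mod.mon_eq, ← prod_fiberwise univ (M.S.lab b), Fintype.prod_option,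
    prod_eq_one fun j hj => by
      rw [show M.η b j = 1 from congrArg _ (M.S.η_none b j (mem_filter.1 hj).2), one_zpow], one_mul]
  refine prod_congr rfl fun l _ => ?_
  rw [ex, ← prod_pow_eq_pow_sum]
  refine prod_congr (by ext; simp) fun j hj => ?_
  rw [← M.S.η_some b j l (mem_filter.1 hj).2, ← zpow_natCast, Int.toNat_of_nonneg (hc j)]

theorem mon_prod' {b : M.ι} {o : M.J} {l0 : Fin (n + 1)} (hl : M.S.lab b o = some l0)
    {c : M.J → ℤ} (hc : 0 ≤ c) (h0 : c o = 0) :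
    M.mon b c = ∏ i, M.S.z b (l0.succAbove i) ^ ex b c (l0.succAbove i) := by
  rw [mon_prod b hc, Fin.prod_univ_succAbove _ l0,
    show ex b c l0 = 0 from sum_eq_zero fun j hj => by
      rw [M.S.lab_inj b j o l0 (mem_filter.1 hj).2 hl, h0]
      rfl, pow_zero, one_mul]

theorem ex_ne {b : M.ι} {c c' : M.J → ℤ} (h : ∀ j, 0 < c j → 1 ≤ c' j) {l : Fin (n + 1)}
    (h0 : ex b c l ≠ 0) : ex b c' l ≠ 0 := by
  obtain ⟨j, hj, h1⟩ := exists_ne_zero_of_sum_ne_zero h0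
  intro e
  have h2 := sum_eq_zero_iff.1 e j hj
  have := h j (by omega)
  omega

variable [Base]

/-- The order of a form is at least its degree times the order of the maximal ideal. -/
theorem pos (E : EOut) {f : M3.Po (n + 1)} {d : ℕ} {o : M.J} {μ : M.J → ℤ} (hM : M.OK (pp _ f))
    (C : Cone M o μ) (hf : f.IsHomogeneous d) (f0 : f ≠ 0) :
    M.a o = d ∧ (M.aa - d • μ) o = 0 ∧ 0 ≤ M.aa - d • μ := by
  have B := E.bas _ _ M hM
  have Nb := E.nb _ _ M hM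
  have va : ∀ j, (M.v j).v (M3.ip _ f) = M.a j := fun j =>
    ((B.gen_v j _ _).1 (B.gen_f _)).2.trans (neg_neg _)
  have ao : M.a o = d := by
    have := C.ord d f f0 hf
    rw [va] at this
    exact_mod_cast this
  refine ⟨ao, by simp [Mod.aa, C.one, ao], fun j => ?_⟩
  obtain ⟨a, ha⟩ := hM.cov _ (B.ov_v j)
  have h2 : M3.ip _ f / M.mon a μ ^ d ∈ M.S.A a := by
    rw [MP_ee8c61_ag.TC.ROrdK.scale (M.mon_ne a μ) hf,
      mul_div_cancel_left₀ _ (pow_ne_zero _ (M.mon_ne a μ)), aeval_def, eval₂_eq]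
    exact sum_mem fun s _ => mul_mem (Subalgebra.algebraMap_mem _ _) (prod_mem fun i _ =>
      pow_mem (by rw [div_eq_mul_inv, ← B.mon_neg]; exact (Nb.H _ _).1 (C.sec i) a) _)
  have f1 := M3B1.ip_ne f0
  have h3 := (ha _ h2).resolve_left (div_ne_zero f1 (pow_ne_zero _ (M.mon_ne a μ)))
  rw [DV.div _ f1 (pow_ne_zero _ (M.mon_ne a μ)), DV.pow, va, B.v_mon a j μ ha] at h3
  simpa [Mod.aa] using h3

theorem key (E : EOut) {r : ℕ} {F : Fin r → M3.Po (n + 1)} {j : Fin r} {h : M3.Po (n + 1)}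
    {d m c κ e : ℕ} {o : M.J} {μ dd : M.J → ℤ} (hM : M.OK (pp _ (F j))) (C : Cone M o μ)
    (hf : ∀ i, (F i).IsHomogeneous d) (f0 : F j ≠ 0)
    (hF : ∀ i, M3.ip _ (F i) / M3.ip _ (F j) ∈ Rb (n + 1))
    (hh : h.IsHomogeneous κ) (he : κ + (e + 1) + (n + 1) * m = c * d)
    (H : Hy (Ideal.span (Set.range F)) h m c)
    (d0 : 0 ≤ dd) (d1 : dd o = 0) (d2 : ∀ j, d * μ j < M.a j → 1 ≤ dd j)
    {V : Vl (n + 1)} (hV : Ov V) (hle : V ≤ (M.v o).O) :
    n ≤ M.k o ∧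
      M.Oc V (m • (M.kk + M.e o + dd) + (e + 1) • μ) (M3.ip _ h / M3.ip _ (F j) ^ c) := by
  classical
  have B := E.bas _ _ M hM
  have Nb := E.nb _ _ M hM
  obtain ⟨b, hb⟩ := hM.cov V hV
  obtain ⟨hbo, h1, ⟨l0, hl⟩, -⟩ := B.in_v b V o hb (B.thru_le V o hV hle)
  obtain ⟨-, vη, hdv⟩ := hM.dv b o h1
  have hη : M.η b o = M.S.z b l0 := M.S.η_some b o l0 hl
  have η0 := M.η_ne b o
  obtain ⟨l, hg⟩ := C.gen V hV
  have hψ : ∀ i, M3.ip _ (X i) * M.mon b (-μ) ∈ M.S.A b := fun i => (Nb.H _ _).1 (C.sec i) b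
  have hs := hg b hb
  obtain ⟨-, P1, P0⟩ := pos E hM C (hf j) f0
  set P : M.J → ℤ := M.aa - d • μ with hP
  have μ0 : 0 ≤ μ - M.e o := fun j => by
    have := C.nonneg j
    by_cases hj : j = o
    · simp [hj, Mod.e_apply, C.one]
    · simpa [hj, Mod.e_apply] using this
  have eν : M.mon b μ = M.η b o * M.mon b (μ - M.e o) := by
    have := B.mon_e b o 1
    rw [one_smul, zpow_one] at this
    rw [← this, ← B.mon_add, add_sub_cancel]
  -- the localised chart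
  let A := aw (M.S.A b) (M3.ip _ (X l) * M.mon b (-μ))
  have hA : ∀ g ∈ A, g ∈ V := (aw_val (hψ l) hs.1 V).2 ⟨hb, hs.2.2⟩
  let ι : ∀ {g}, g ∈ M.S.A b → A := fun {g} hg => ⟨g, le_aw hg⟩
  let z : Fin (n + 1) → A := fun i => ι (M.S.z_mem b i)
  let ψ : Fin (n + 1) → A := fun i => ι (hψ i)
  let D : Fin (n + 1) → Derivation ℂ A A := fun i => res A (M.S.D b i)
    ((away M.S (fun _ : Unit => b) (fun _ => _) (fun _ => hψ l) fun _ => hs.1).D_mem () i)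
  have Dz : ∀ i j, D i (z j) = if i = j then 1 else 0 := fun i j => Subtype.ext (by
    change M.S.D b i (M.S.z b j) = _
    rw [M.S.D_z]
    split_ifs <;> rfl)
  have dvd : ∀ g : A, z l0 ∣ g ↔ (g : KK (n + 1)) ∈ (M.v o).F 1 := fun g => by
    refine ⟨fun ⟨c, e⟩ => ?_, fun hg => ?_⟩
    · rw [e]
      change M.S.z b l0 * (c : KK (n + 1)) ∈ _
      simpa using (M.v o).F_mul (m := 1) (m' := 0) (Or.inr (hη ▸ vη.ge)) (hle (hA _ c.2))
    · obtain ⟨r, hr⟩ := (mem_aw (hψ l) hs.1).1 g.2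
      have h2 := hdv _ hr (by
        simpa using (M.v o).F_mul (m := 0) (m' := 1) (hle (pow_mem hs.2.1 r)) hg)
      refine ⟨⟨(g : KK (n + 1)) * (M.η b o)⁻¹, (mem_aw (hψ l) hs.1).2 ⟨r, by rwa [← mul_assoc]⟩⟩,
        Subtype.ext ?_⟩
      change (g : KK (n + 1)) = M.S.z b l0 * ((g : KK (n + 1)) * _)
      rw [← hη, mul_left_comm, mul_inv_cancel₀ η0, mul_one]
  have pr : (Ideal.span {z l0}).IsPrime := by
    refine ⟨fun e => ?_, fun {x y} hxy => ?_⟩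
    · have := (dvd 1).1 (Ideal.mem_span_singleton.1 (e ▸ Submodule.mem_top))
      have := this.resolve_left one_ne_zero
      rw [OneMemClass.coe_one, DV.one] at this
      omega
    · simp only [Ideal.mem_span_singleton, dvd] at hxy ⊢
      by_contra hn
      obtain ⟨a1, a2⟩ := not_or.1 (not_or.1 hn).1
      obtain ⟨a3, a4⟩ := not_or.1 (not_or.1 hn).2
      have a5 := hxy.resolve_left (mul_ne_zero a1 a3)
      rw [MulMemClass.coe_mul, (M.v o).mul _ _ a1 a3] at a5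
      omega
  -- the Jacobian
  obtain ⟨ε, r, hr⟩ := rowDet n A D l0 (z l0) (ι (B.mon_mem b _ μ0)) ψ fun i => Dz i l0
  obtain ⟨U', hU', hdet⟩ := hM.det b
  set Δ : A := ((ε : ℤ) : A) * ι (B.mon_mem b _ μ0) ^ (n + 1) *
    jac (fun i => D (l0.succAbove i)) ψ + z l0 * r with hΔ
  have eΔ : (U' : KK (n + 1)) * M.mon b M.kk = M.η b o ^ n * (Δ : KK (n + 1)) := by
    have h2 := congrArg A.val hr
    rw [AlgHom.map_det, map_mul, map_pow] at h2
    rw [← hdet, hη]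
    refine Eq.trans (congrArg _ ?_) h2
    ext l' i
    change M.S.D b i (M.S.r l') = M.S.D b i (M.S.z b l0 * M.mon b (μ - M.e o) * (_ * _))
    rw [hM.r, ← hη, ← eν, B.mon_neg, mul_left_comm, mul_inv_cancel₀ (M.mon_ne b μ), mul_one]
    rfl
  have un : ∀ W : (KK (n + 1))ˣ, M.S.IsU b W → Un V (W : KK (n + 1)) := fun W hW =>
    ⟨W.ne_zero, hb _ hW.1, Units.val_inv_eq_inv_val W ▸ hb _ hW.2⟩
  have Δ0 : (Δ : KK (n + 1)) ≠ 0 := fun e => mul_ne_zero U'.ne_zero (M.mon_ne b _) (by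
    rw [eΔ, e, mul_zero])
  refine ⟨?_, ?_⟩
  · have h2 := congrArg (M.v o).v eΔ
    rw [(M.v o).mul _ _ U'.ne_zero (M.mon_ne b _), (M.v o).mul _ _ (pow_ne_zero _ η0) Δ0,
      ((M.v o).un_O.1 ((un U' hU').mono hle)).2, B.v_mon b o _ hbo, DV.pow, vη] at h2
    have h3 : 0 ≤ (M.v o).v Δ := (hle (hA _ Δ.2)).resolve_left Δ0
    have h4 : M.kk o = M.k o := rfl
    omega
  -- the hypothesis
  obtain ⟨U, hU, hord⟩ := hM.ord b
  let u : Aˣ := ⟨ι hU.1, ι hU.2, Subtype.ext U.mul_inv, Subtype.ext U.inv_mul⟩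
  set Y : A := ∏ i, z (l0.succAbove i) ^ ex b P (l0.succAbove i) with hY
  have eP : (Y : KK (n + 1)) = M.mon b P := by
    rw [mon_prod' hl P0 P1]
    exact map_prod A.val _ _
  have ev : ∀ {p : M3.Po (n + 1)} {k : ℕ}, p.IsHomogeneous k →
      M3.ip _ p = M.mon b μ ^ k * ((aeval ψ p : A) : KK (n + 1)) := fun {p k} hp => by
    rw [MP_ee8c61_ag.TC.ROrdK.scale (M.mon_ne b μ) hp]
    refine congrArg _ (Eq.trans ?_ (comp_aeval_apply ψ A.val p).symm)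
    congr 2
    funext i
    rw [div_eq_mul_inv, ← B.mon_neg]
    rfl
  have ef : M3.ip _ (F j) = M.mon b μ ^ d * (U * M.mon b P) := by
    rw [← ip_pp, hord, ← B.mon_nsmul, mul_left_comm, ← B.mon_add, hP, add_sub_cancel]
  have ej : aeval ψ (F j) = u * Y := Subtype.ext (by
    rw [MulMemClass.coe_mul, eP]
    exact mul_left_cancel₀ (pow_ne_zero d (M.mon_ne b μ)) ((ev (hf j)).symm.trans ef))
  obtain ⟨y, hy⟩ := quo H z D l0 ψ (fun i => ex b P (l0.succAbove i))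
    (et_aw _ _ (hψ l) hs.1 (hM.et b)) Dz pr
    ⟨l, IsUnit.of_mul_eq_one (⟨_, inv_mem_aw⟩ : A) (Subtype.ext (mul_inv_cancel₀ hs.1))⟩ (by
      rw [Ideal.map_span, ← hY, ← Ideal.span_singleton_mul_left_unit u.isUnit, ← ej]
      refine le_antisymm (Ideal.span_le.2 ?_)
        (Ideal.span_mono (Set.singleton_subset_iff.2 ⟨_, ⟨j, rfl⟩, rfl⟩))
      rintro _ ⟨_, ⟨i, rfl⟩, rfl⟩
      refine Ideal.mem_span_singleton'.2 ⟨ι (hM.pol b ⟨_, hF i⟩), Subtype.ext ?_⟩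
      refine mul_left_cancel₀ (pow_ne_zero d (M.mon_ne b μ)) ?_
      rw [← ev (hf i), MulMemClass.coe_mul, mul_left_comm, ← ev (hf j)]
      exact div_mul_cancel₀ _ (M3B1.ip_ne f0))
  rw [← hY] at hy
  set Z : A := ∏ i with ex b P (l0.succAbove i) ≠ 0, z (l0.succAbove i) with hZ
  obtain ⟨ρ, hρ⟩ : Z ∣ ∏ i, z (l0.succAbove i) ^ ex b dd (l0.succAbove i) := by
    rw [hZ, prod_filter]
    refine prod_dvd_prod_of_dvd _ _ fun i _ => ?_
    split_ifs with hi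
    · exact dvd_pow_self _ (ex_ne (fun j hj => d2 j (by simpa [hP, Mod.aa] using hj)) hi)
    · exact one_dvd _
  have eδ : M.mon b dd = (Z : KK (n + 1)) * (ρ : KK (n + 1)) := by
    rw [mon_prod' hl d0 d1, ← MulMemClass.coe_mul, ← hρ]
    exact (map_prod A.val (fun i => z (l0.succAbove i) ^ ex b dd (l0.succAbove i)) _).symm
  set Θ : A := (ι (B.mon_mem b _ μ0) ^ (n + 1)) ^ m * Y ^ c with hΘ
  have eΘ : (Θ : KK (n + 1)) = (M.mon b (μ - M.e o) ^ (n + 1)) ^ m * M.mon b P ^ c := by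
    rw [hΘ, MulMemClass.coe_mul, SubmonoidClass.coe_pow Y, eP]
    rfl
  have h5 : z l0 ∣ aeval ψ h * (Δ * Z) ^ m - Θ * (((ε : ℤ) : A) ^ m * y) := by
    have a1 : z l0 ∣ (Δ * Z) ^ m - (((ε : ℤ) : A) * ι (B.mon_mem b _ μ0) ^ (n + 1) *
        (jac (fun i => D (l0.succAbove i)) ψ * Z)) ^ m :=
      Dvd.dvd.trans ⟨r * Z, by rw [hΔ]; ring⟩ (sub_dvd_pow_sub_pow _ _ m)
    have a2 := (a1.mul_left (aeval ψ h)).add
      (hy.mul_left ((((ε : ℤ) : A) * ι (B.mon_mem b _ μ0) ^ (n + 1)) ^ m))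
    refine Eq.subst (motive := (z l0 ∣ ·)) ?_ a2
    rw [hΘ]
    simp only [mul_pow]
    ring
  have uΘ : Un (M.v o).O (Θ : KK (n + 1)) := by
    have a : ∀ c : M.J → ℤ, c o = 0 → Un (M.v o).O (M.mon b c) := fun c hc =>
      (M.v o).un_O.2 ⟨M.mon_ne b c, (B.v_mon b o c hbo).trans hc⟩
    rw [eΘ]
    exact (((a _ (by simp [Mod.e_apply, C.one])).pow _).pow _).mul ((a _ P1).pow _)
  have h6 : ((aeval ψ h * (Δ * Z) ^ m : A) : KK (n + 1)) / (Θ : KK (n + 1)) ∈ V := by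
    have a1 := (M.v o).F_mul (m := 1) (m' := 0) ((dvd _).1 h5) uΘ.2.2
    have a2 := add_mem (B.small V o hle _ (by simpa using a1)).1 (hA _ (((ε : ℤ) : A) ^ m * y).2)
    refine Eq.subst (motive := (· ∈ V)) ?_ a2
    have := uΘ.1
    push_cast
    field_simp
    ring
  rw [B.oc_iff b V _ _ hb]
  refine Eq.subst (motive := (· ∈ V)) ?_ (mul_mem (mul_mem h6
    (pow_mem (mul_mem (un U' hU').2.2 (hA _ ρ.2)) m)) (pow_mem (un U hU).2.2 c))
  have ek : M.mon b M.kk = (U' : KK (n + 1))⁻¹ * (M.η b o ^ n * (Δ : KK (n + 1))) := by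
    rw [← eΔ, inv_mul_cancel_left₀ U'.ne_zero]
  have e1 := B.mon_e b o 1
  rw [one_smul, zpow_one] at e1
  have e2 : (M.mon b μ ^ d) ^ c =
      M.mon b μ ^ κ * M.mon b μ ^ (e + 1) * (M.mon b μ ^ (n + 1)) ^ m := by
    rw [← pow_mul, ← pow_mul, ← pow_add, ← pow_add, he, mul_comm]
  rw [B.mon_add, B.mon_nsmul, B.mon_nsmul, B.mon_add, B.mon_add, e1, ek, eδ, ev hh, ef,
    mul_pow (M.mon b μ ^ d), e2, eΘ]
  have a1 := M.mon_ne b μ
  have a2 := M.mon_ne b (μ - M.e o)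
  have a3 := M.mon_ne b P
  have a4 := U.ne_zero
  have a5 := U'.ne_zero
  have e3 : M.mon b μ ^ (n + 1) = M.η b o ^ n * M.η b o * M.mon b (μ - M.e o) ^ (n + 1) := by
    rw [eν]
    ring
  rw [e3]
  push_cast
  simp only [mul_pow, inv_pow (U : KK (n + 1))]
  field_simp

end Pool.Agent.MP_ee8c61_ag.N3.O4
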