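import Pool.Agent.MP_ee8c61_ag.TW.Spec
import Pool.Agent.MP_ee8c61_ag.TC.RMod
import Pool.Agent.MP_ee8c61_ag.TC.RKle
import Pool.Agent.MP_ee8c61_ag.TC.ROrdK
import Pool.Agent.MP_ee8c61_ag.TC.ROrd

/-! A model over a base that dominates the blow-up of the origin. -/

namespace Pool.Agent.MP_ee8c61_ag.N3.O4

open MvPolynomial M3 N3.M3E
open Pool.Agent.MP_ee8c61_ag.TC (Ord OrdK rowOrdK rowOrd)
open Pool.Agent.MP_ee8c61_ag.TC.RMod (sum_X div_mem)

noncomputable section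

variable [Base] {N n : ℕ}

/-- The model dominates the blow-up of the origin, whose exceptional divisor is `o`; `μ` is the
divisor of the maximal ideal. -/
structure Cone (M : Mod N) (o : M.J) (μ : M.J → ℤ) : Prop where
  ord : Ord (M.v o)
  sec : ∀ l, M3.ip N (X l) ∈ M.H (-μ)
  gen : ∀ V, Ov V → ∃ l, M.Gen V (-μ) (M3.ip N (X l))
  nonneg : 0 ≤ μ
  one : μ o = 1

theorem rMod (E : EOut) (h0 : SB1raw) {f : M3.Po (n + 1)} (hf : Gd (pp _ f))
    (hf0 : homogeneousComponent 0 f = 0) (hov : ∀ v : DV (KK (n + 1)), Ord v → Ov v.O) :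
    ∃ (M : Mod (n + 1)) (o : M.J) (μ : M.J → ℤ), M.OK (pp _ f) ∧ Cone M o μ := by
  classical
  obtain ⟨W, hW, c, T, hT, h1, h2⟩ := h0 _ (pp _ f)
    (insert (pp _ f) (Finset.univ.image fun l => pp _ (X l))) hf
    ⟨1, by rw [pow_one]; exact Finset.mem_insert_self _ _⟩
  have B := E.bas _ _ W hW
  have hN := E.nb _ _ W hW
  have sec : ∀ l, M3.ip _ (X l) ∈ W.H c := fun l => h1 _ (Finset.mem_coe.1 (hT ▸ ⟨_,
    Finset.mem_coe.2 (Finset.mem_insert_of_mem
      (Finset.mem_image_of_mem (fun l => pp _ (X l)) (Finset.mem_univ l))), rfl⟩))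
  have gen : ∀ V, Ov V → ∃ l, W.Gen V c (M3.ip _ (X l)) := fun V hV => by
    obtain ⟨g, hg, hgV⟩ := h2 V hV
    obtain ⟨p, hp, rfl⟩ : g ∈ ip _ '' _ := hT ▸ Finset.mem_coe.2 hg
    rcases Finset.mem_insert.1 (Finset.mem_coe.1 hp) with rfl | hp
    · by_contra hn
      obtain ⟨b, hb⟩ := hW.cov V hV
      obtain ⟨q, hq⟩ := sum_X hf0
      have hu := hgV b hb
      rw [ip_pp, ← hq, map_sum, Finset.sum_mul] at hu
      refine not_un_sum _ (fun l _ => ?_) (fun l _ => ?_) hu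
      · rw [map_mul, mul_assoc]
        exact mul_mem (hV.pol _) (sec l V hV b hb)
      · rw [map_mul, mul_assoc]
        exact not_un_mul (hV.pol _) (sec l V hV b hb) fun e =>
          hn ⟨l, (B.gen_iff b V _ _ hb).2 e⟩
    · obtain ⟨l, -, rfl⟩ := Finset.mem_image.1 hp
      exact ⟨l, hgV⟩
  have nn : 0 ≤ -c := fun j => by
    obtain ⟨l, hl⟩ := gen _ (B.ov_v j)
    obtain ⟨a1, a2⟩ := (B.gen_v j _ _).1 hl
    exact (((B.ov_v j).pol (X l)).resolve_left a1).trans_eq a2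
  obtain ⟨v, hv⟩ := rowOrd n
  have K := rowOrdK n v hv
  have hx : ∀ l, v.v (M3.ip _ (X l)) = 1 := fun l => hv 1 _ (X_ne_zero l) (isHomogeneous_X _ l)
  have hV : Ov v.O := hov v hv
  obtain ⟨b, hb⟩ := hW.cov _ hV
  obtain ⟨l, hl⟩ := gen _ hV
  have hu := hl b hb
  have hν : v.v (W.mon b (-c)) = 1 := by
    have := (v.un_O.1 hu).2
    rw [v.mul _ _ (M3B1.ip_ne (X_ne_zero l)) (W.mon_ne _ _), hx] at this
    rw [B.mon_neg, v.inv]
    omega
  obtain ⟨j, hj⟩ : ∃ j, W.Thru v.O j := by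
    by_contra hn
    have := (v.un_O.1 (B.un_of b _ (-c) hb fun j h => absurd ⟨j, h⟩ hn)).2
    omega
  obtain ⟨a1, a2, -, a3⟩ := B.in_v b _ j hb hj
  have hd : ∀ (e : ℕ) p, M3.ip _ p ∈ v.F e → M3.ip _ p / W.mon b (-c) ^ e ∈ W.S.A b :=
    fun e p hp => div_mem K (W.mon_ne _ _) (B.mon_mem b _ nn) (fun i => by
      rw [B.mon_neg, div_inv_eq_mul]
      exact (hN.H _ _).1 (sec i) b) hp
  have hle : v.O ≤ (W.v j).O := fun z hz => by
    obtain ⟨p, q, hq, e1⟩ := M3B1.frac z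
    have q0 := M3B1.ip_ne hq
    obtain ⟨e, he⟩ := Int.eq_ofNat_of_zero_le ((hV.pol q).resolve_left q0)
    have m0 := pow_ne_zero e (W.mon_ne b (-c))
    have hq1 : M3.ip _ q ∈ v.F e := Or.inr he.ge
    have hp1 : M3.ip _ p ∈ v.F e := by
      have := v.F_mul hq1 hz
      rwa [e1, add_zero] at this
    have u1 : Un v.O (M3.ip _ q / W.mon b (-c) ^ e) :=
      v.un_O.2 ⟨div_ne_zero q0 m0, by rw [v.div q0 m0, v.pow, hν, he, mul_one, sub_self]⟩
    have u2 : Un (W.v j).O (M3.ip _ q / W.mon b (-c) ^ e) :=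
      (W.v j).un_O.2 ⟨u1.1, a3 _ (hd e q hq1) u1⟩
    refine u2.mem_iff.1 ?_
    rw [← mul_div_assoc, mul_comm, e1]
    exact a1 _ (hd e p hp1)
  have hη := (hW.dv b j a2).2.1
  have hO' : (W.v j).O = v.O := M3B1.dv_max v _ hle fun e => by
    have h3 : (W.η b j)⁻¹ ∈ (W.v j).O := e ▸ ValuationSubring.mem_top _
    have := Or.resolve_left h3 (inv_ne_zero (W.η_ne b j))
    rw [(W.v j).inv] at this
    omega
  have hvv : W.v j = v := M3B1.dv_uniq hO' hη (hx l)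
  refine ⟨W, j, -c, hW, hvv ▸ hv, by rwa [neg_neg], by rwa [neg_neg], nn, ?_⟩
  have := ((B.gen_v j c _).1 (hO' ▸ hl)).2
  rw [hvv, hx] at this
  exact this.symm

theorem rKle (E : EOut) {f : Po (n + 1)} {M : Mod (n + 1)} {o : M.J} (hM : M.OK f)
    (ho : Ord (M.v o)) : M.k o ≤ n := by
  have B := E.bas _ f M hM
  have K := rowOrdK n _ ho
  obtain ⟨b, hb⟩ := hM.ne o
  obtain ⟨h1, h2, -⟩ := hM.dv b o hb
  obtain ⟨-, -, ⟨l0, hl⟩, -⟩ := B.in_v b _ o h1 ((B.thru_v o o).2 rfl)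
  obtain ⟨U, hU, hd⟩ := hM.det b
  have hPA : (Matrix.of fun j l => M3B1.pd (n + 1) l (M.S.z b j)) *
      (Matrix.of fun l i => M.S.D b i (M.S.r l)) = 1 := by
    ext j i
    have h := M3B1.chain (M.S.D b i) (M.S.z b j)
    rw [M.S.D_z] at h
    rw [Matrix.mul_apply, Matrix.one_apply, if_congr eq_comm rfl rfl, h, hM.r]
    exact Finset.sum_congr rfl fun l _ => mul_comm _ _
  have hz : ∀ j, M.S.z b j ∈ (M.v o).F (if j = l0 then 1 else 0) := fun j => by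
    split_ifs with e
    · rw [e, ← M.S.η_some b o l0 hl]
      exact Or.inr h2.ge
    · exact h1 _ (M.S.z_mem b j)
  have hP : (Matrix.of fun j l => M3B1.pd (n + 1) l (M.S.z b j)).det ∈ (M.v o).F (-n) := by
    rw [Matrix.det_apply]
    refine sum_mem fun σ _ => ?_
    have h := MP_ee8c61_ag.TC.RKle.prod_mem (M.v o) Finset.univ
      (fun l => M3B1.pd (n + 1) l (M.S.z b (σ l)))
      (fun l => (if σ l = l0 then 1 else 0) - 1) fun l => K.der l _ _ (hz _)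
    have e : ∑ l, (if σ l = l0 then 1 else 0 : ℤ) = 1 := by
      rw [Equiv.sum_comp σ fun l => (if l = l0 then 1 else 0 : ℤ)]
      simp
    have e' : (1 : ℤ) - ∑ _l : Fin (n + 1), (1 : ℤ) = -n := by simp
    rw [Finset.sum_sub_distrib, e, e'] at h
    rw [Units.smul_def]
    exact zsmul_mem h _
  have hdet := congrArg Matrix.det hPA
  rw [Matrix.det_mul, Matrix.det_one, hd] at hdet
  have hP0 := left_ne_zero_of_mul_eq_one hdet
  have hv := congrArg (M.v o).v hdet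
  have hu : (M.v o).v U = 0 :=
    ((M.v o).un_O.1 ⟨U.ne_zero, h1 _ hU.1, by simpa using h1 _ hU.2⟩).2
  rw [(M.v o).mul _ _ hP0 (right_ne_zero_of_mul_eq_one hdet), (M.v o).one,
    (M.v o).mul _ _ U.ne_zero (M.mon_ne b _), hu, B.v_mon b o _ h1] at hv
  have h3 := hP.resolve_left hP0
  have h4 : M.kk o = M.k o := rfl
  omega

end

end Pool.Agent.MP_ee8c61_ag.N3.O4
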